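import Mathlib

set_option autoImplicit false

namespace Pool.Agent.BranchNorm

open Equiv

/-- vertices of the binary tree -/
abbrev T := List Bool

/-- swap the first two letters -/
def sw : T → T
  | [] => []
  | [x] => [x]
  | (x :: y :: l) => y :: x :: l

@[simp] lemma sw_nil : sw [] = [] := rfl
@[simp] lemma sw_one (x : Bool) : sw [x] = [x] := rfl
@[simp] lemma sw_cons (x y : Bool) (l : T) : sw (x :: y :: l) = y :: x :: l := rfl

@[simp] lemma sw_sw (v : T) : sw (sw v) = v := by
  match v with
  | [] => rfl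
  | [x] => rfl
  | (x :: y :: l) => rfl

@[simp] lemma sw_length (v : T) : (sw v).length = v.length := by
  match v with
  | [] => rfl
  | [x] => rfl
  | (x :: y :: l) => rfl

/-- translation by an infinite word -/
def tr : (ℕ → Bool) → T → T
  | _, [] => []
  | t, (x :: l) => (x ^^ t 0) :: tr (fun n => t (n + 1)) l

@[simp] lemma tr_nil (t : ℕ → Bool) : tr t [] = [] := rfl
@[simp] lemma tr_cons (t : ℕ → Bool) (x : Bool) (l : T) :
    tr t (x :: l) = (x ^^ t 0) :: tr (fun n => t (n + 1)) l := rfl

@[simp] lemma tr_tr (t : ℕ → Bool) (v : T) : tr t (tr t v) = v := by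
  induction v generalizing t with
  | nil => rfl
  | cons x l ih => simp [ih]

@[simp] lemma tr_length (t : ℕ → Bool) (v : T) : (tr t v).length = v.length := by
  induction v generalizing t with
  | nil => rfl
  | cons x l ih => simp [ih]

lemma tr_mono (t : ℕ → Bool) {v w : T} (h : v <+: w) : tr t v <+: tr t w := by
  induction v generalizing t w with
  | nil => simp
  | cons x l ih =>
    cases w with
    | nil => simp at h
    | cons y l' =>
      rw [List.cons_prefix_cons] at h
      simp only [tr_cons, List.cons_prefix_cons]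
      exact ⟨by rw [h.1], ih _ h.2⟩

lemma tr_trans (v w : T) (h : v.length = w.length) : ∃ t, tr t v = w := by
  induction v generalizing w with
  | nil =>
    refine ⟨fun _ => false, ?_⟩
    simp at h
    simp [List.length_eq_zero_iff.mp h.symm]
  | cons x l ih =>
    cases w with
    | nil => simp at h
    | cons y l' =>
      obtain ⟨t, ht⟩ := ih l' (by simpa using h)
      refine ⟨fun n => match n with | 0 => x ^^ y | (n+1) => t n, ?_⟩
      simp only [tr_cons]
      rw [ht]
      cases x <;> cases y <;> rfl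

/-- the permutation given by a translation -/
def trP (t : ℕ → Bool) : Perm T where
  toFun := tr t
  invFun := tr t
  left_inv := tr_tr t
  right_inv := tr_tr t

/-- the branch group -/
def L : Subgroup (Perm T) where
  carrier := {g | (∀ v w : T, v <+: w ↔ g v <+: g w) ∧ (∀ v, (g v).length = v.length) ∧
    ∃ a b : Bool, ∀ p q : Bool, g [p, q] = [p ^^ a, q ^^ b]}
  mul_mem' := by
    rintro g h ⟨g1, g2, a, b, g3⟩ ⟨h1, h2, c, d, h3⟩
    refine ⟨fun v w => ?_, fun v => ?_, c ^^ a, d ^^ b, fun p q => ?_⟩
    · rw [h1, g1]; rfl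
    · rw [Perm.mul_apply, g2, h2]
    · rw [Perm.mul_apply, h3, g3]; simp
  one_mem' := by
    refine ⟨fun v w => Iff.rfl, fun v => rfl, false, false, fun p q => by simp⟩
  inv_mem' := by
    rintro g ⟨g1, g2, a, b, g3⟩
    refine ⟨fun v w => ?_, fun v => ?_, a, b, fun p q => ?_⟩
    · rw [g1 (g⁻¹ v) (g⁻¹ w)]; simp
    · rw [← g2 (g⁻¹ v)]; simp
    · rw [Perm.inv_eq_iff_eq, g3]; simp

lemma mem_L (g : Perm T) : g ∈ L ↔ (∀ v w : T, v <+: w ↔ g v <+: g w) ∧
    (∀ v, (g v).length = v.length) ∧
    ∃ a b : Bool, ∀ p q : Bool, g [p, q] = [p ^^ a, q ^^ b] := Iff.rfl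

lemma iff_of_mono (g : Perm T) (h1 : ∀ v w : T, v <+: w → g v <+: g w)
    (h2 : ∀ v w : T, v <+: w → g⁻¹ v <+: g⁻¹ w) (v w : T) : v <+: w ↔ g v <+: g w := by
  refine ⟨h1 v w, fun h => ?_⟩
  simpa using h2 _ _ h

lemma trP_mem (t : ℕ → Bool) : trP t ∈ L := by
  refine ⟨iff_of_mono _ (fun v w h => tr_mono t h) (fun v w h => tr_mono t h),
    fun v => tr_length t v, t 0, t 1, fun p q => rfl⟩

lemma L_trans (v w : T) (h : v.length = w.length) : ∃ g ∈ L, g v = w := by
  obtain ⟨t, ht⟩ := tr_trans v w h
  exact ⟨trP t, trP_mem t, ht⟩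

/-! ### the automorphism -/

/-- the twisted map -/
def F (g : Perm T) : T → T
  | [] => []
  | [x] => (g [false, x]).tail
  | (x :: y :: l) => sw (g (y :: x :: l))

lemma L_one {g : Perm T} (hg : g ∈ L) {a b : Bool}
    (h : ∀ p q : Bool, g [p, q] = [p ^^ a, q ^^ b]) (x : Bool) : g [x] = [x ^^ a] := by
  have h1 : g [x] <+: g [x, x] := (hg.1 [x] [x, x]).1 (by simp)
  have h2 : (g [x]).length = 1 := hg.2.1 [x]
  rw [h] at h1
  obtain ⟨c, hc⟩ := List.length_eq_one_iff.mp h2
  rw [hc] at h1 ⊢
  simp at h1
  rw [h1]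

lemma L_two {g : Perm T} (hg : g ∈ L) {a b : Bool}
    (h : ∀ p q : Bool, g [p, q] = [p ^^ a, q ^^ b]) (x y : Bool) (l : T) :
    ∃ l', g (x :: y :: l) = (x ^^ a) :: (y ^^ b) :: l' := by
  have h1 : g [x, y] <+: g (x :: y :: l) := (hg.1 [x, y] (x :: y :: l)).1 (by simp)
  rw [h] at h1
  obtain ⟨l', hl'⟩ := h1
  exact ⟨l', hl'.symm⟩

lemma L_nil {g : Perm T} (hg : g ∈ L) : g [] = [] := by
  have := hg.2.1 []
  simpa using this

lemma F_one (v : T) : F 1 v = v := by
  match v with
  | [] => rfl
  | [x] => rfl
  | (x :: y :: l) => rfl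

lemma F_mul {g h : Perm T} (hg : g ∈ L) (hh : h ∈ L) (v : T) : F g (F h v) = F (g * h) v := by
  obtain ⟨g1, g2, a, b, g3⟩ := id hg
  obtain ⟨h1, h2, c, d, h3⟩ := id hh
  match v with
  | [] => rfl
  | [x] =>
    simp only [F, h3, List.tail_cons, g3, Perm.mul_apply]
  | (x :: y :: l) =>
    obtain ⟨l', hl'⟩ := L_two hh h3 y x l
    simp only [F, Perm.mul_apply, hl', sw_cons]

lemma F_length {g : Perm T} (hg : g ∈ L) (v : T) : (F g v).length = v.length := by
  obtain ⟨g1, g2, a, b, g3⟩ := id hg
  match v with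
  | [] => rfl
  | [x] => simp [F, g3]
  | (x :: y :: l) => simp [F, g2]

lemma F_mono {g : Perm T} (hg : g ∈ L) {v w : T} (h : v <+: w) : F g v <+: F g w := by
  obtain ⟨g1, g2, a, b, g3⟩ := id hg
  match v, w, h with
  | [], w, _ => simp [F]
  | [x], [], h => simp at h
  | [x], [y], h => simp at h; rw [h]
  | [x], (y :: z :: l), h =>
    simp at h
    subst h
    obtain ⟨l', hl'⟩ := L_two hg g3 z x l
    simp [F, g3, hl']
  | (x :: y :: l), [], h => simp at h
  | (x :: y :: l), [z], h => simp at h
  | (x :: y :: l), (x' :: y' :: l'), h =>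
    simp only [List.cons_prefix_cons] at h
    obtain ⟨rfl, rfl, h⟩ := h
    obtain ⟨m, hm⟩ := L_two hg g3 y x l
    obtain ⟨m', hm'⟩ := L_two hg g3 y x l'
    have := (g1 (y :: x :: l) (y :: x :: l')).1 (by simp [h])
    simp only [F, hm, hm', sw_cons, List.cons_prefix_cons] at this ⊢
    simp only [true_and] at this ⊢
    exact this

lemma F_two {g : Perm T} {a b : Bool}
    (h : ∀ p q : Bool, g [p, q] = [p ^^ a, q ^^ b]) (p q : Bool) :
    F g [p, q] = [p ^^ b, q ^^ a] := by
  simp [F, h]

/-- the twisted permutation -/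
def Fp (g : L) : Perm T where
  toFun := F g.1
  invFun := F (g.1)⁻¹
  left_inv := fun v => by
    rw [F_mul (L.inv_mem g.2) g.2, inv_mul_cancel, F_one]
  right_inv := fun v => by
    rw [F_mul g.2 (L.inv_mem g.2), mul_inv_cancel, F_one]

lemma Fp_mem (g : L) : Fp g ∈ L := by
  obtain ⟨g, hg⟩ := g
  obtain ⟨g1, g2, a, b, g3⟩ := id hg
  refine ⟨iff_of_mono _ (fun v w h => F_mono hg h) (fun v w h => F_mono (L.inv_mem hg) h),
    fun v => F_length hg v, b, a, fun p q => F_two g3 p q⟩

lemma F_F (g : L) (v : T) : F (Fp g) v = g.1 v := by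
  obtain ⟨g, hg⟩ := g
  obtain ⟨g1, g2, a, b, g3⟩ := id hg
  match v with
  | [] => simp [F, L_nil hg]
  | [x] =>
    show (F g [false, x]).tail = g [x]
    rw [F_two g3, L_one hg g3]; rfl
  | (x :: y :: l) =>
    show sw (F g (y :: x :: l)) = g (x :: y :: l)
    simp [F]

/-- the automorphism of L -/
def phi : L ≃* L where
  toFun g := ⟨Fp g, Fp_mem g⟩
  invFun g := ⟨Fp g, Fp_mem g⟩
  left_inv g := by
    ext1
    ext1 v
    exact F_F g v
  right_inv g := by
    ext1
    ext1 v
    exact F_F g v
  map_mul' g h := by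
    ext1
    ext1 v
    exact (F_mul g.2 h.2 v).symm

lemma phi_apply (g : L) (v : T) : (phi g : Perm T) v = F g.1 v := rfl

/-- the automorphism is not conjugation by a tree automorphism -/
lemma phi_not_conj (σ : Perm T) (h1 : ∀ v w : T, v <+: w ↔ σ v <+: σ w)
    (h2 : ∀ g : L, ((phi g : L) : Perm T) = σ * (g : Perm T) * σ⁻¹) : False := by
  let t : ℕ → Bool := fun n => decide (n = 1)
  have hσ0 : σ [] = [] := by
    have := (h1 [] (σ⁻¹ [])).1 (by simp)
    simpa using this
  have h3 := congrArg (fun p : Perm T => p [true]) (h2 ⟨trP t, trP_mem t⟩)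
  simp only [phi_apply, Perm.mul_apply] at h3
  have h4 : F (trP t) [true] = [false] := by
    simp [F, trP, t]
  rw [h4] at h3
  have h5 : ∀ u : T, σ u = [true] → ∃ y, u = [y] := by
    intro u hu
    match u with
    | [] => rw [hσ0] at hu; simp at hu
    | [y] => exact ⟨y, rfl⟩
    | (y :: z :: l) =>
      exfalso
      have h6 : σ [y] <+: σ (y :: z :: l) := (h1 _ _).1 (by simp)
      rw [hu] at h6
      have h7 : σ [y] = [] ∨ σ [y] = [true] := by
        rcases hs : σ [y] with _ | ⟨c, s⟩
        · left; rfl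
        · right
          rw [hs] at h6
          simp only [List.cons_prefix_cons, List.prefix_nil] at h6
          rw [h6.1, h6.2]
      rcases h7 with h7 | h7
      · rw [← hσ0] at h7
        have := σ.injective h7
        simp at this
      · rw [← hu] at h7
        have := σ.injective h7
        simp at this
  obtain ⟨y, hy⟩ := h5 (σ⁻¹ [true]) (by simp)
  rw [hy] at h3
  have h8 : trP t [y] = [y] := by simp [trP, t]
  rw [h8, ← hy] at h3
  simp at h3

/-! ### the group is branch -/

/-- generators of the rigid level stabiliser -/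
def S (n : ℕ) : Set (Perm T) :=
  {g | g ∈ L ∧ ∃ u : T, u.length = n ∧ ∀ v : T, ¬ u <+: v → g v = v}

/-- restriction of a level stabiliser element to a union of subtrees -/
noncomputable def resF (k : ℕ) (g : T → T) (A : Set T) : T → T := by
  classical exact fun v => if v.take k ∈ A then g v else v

lemma take_fix {k : ℕ} {g : Perm T} (hg : g ∈ L) (hk : ∀ v : T, v.length = k → g v = v) (v : T) :
    (g v).take k = v.take k := by
  rcases le_total k v.length with h | h
  · have h1 : g (v.take k) <+: g v := (hg.1 _ _).1 (List.take_prefix k v)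
    rw [hk (v.take k) (by simp [h])] at h1
    rw [List.prefix_iff_eq_take] at h1
    rw [List.length_take, min_eq_left h] at h1
    exact h1.symm
  · -- v is short; extend
    have h2 : ∃ w : T, v <+: w ∧ w.length = k := by
      refine ⟨v ++ List.replicate (k - v.length) false, by simp, ?_⟩
      simp; omega
    obtain ⟨w, hw1, hw2⟩ := h2
    have h3 : g v <+: w := by
      have := (hg.1 _ _).1 hw1
      rwa [hk w hw2] at this
    have h4 : (g v).length = v.length := hg.2.1 v
    have h5 : g v = v := by
      rw [List.prefix_iff_eq_take] at h3 hw1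
      rw [h3, h4, ← hw1]
    rw [h5]

lemma fix_short {k : ℕ} {g : Perm T} (hg : g ∈ L) (hk : ∀ v : T, v.length = k → g v = v) (v : T)
    (hv : v.length ≤ k) : g v = v := by
  have h1 := take_fix hg hk v
  rw [List.take_of_length_le hv, List.take_of_length_le (by rw [hg.2.1]; exact hv)] at h1
  exact h1

/-- level stabiliser predicate -/
def St (k : ℕ) (g : Perm T) : Prop := g ∈ L ∧ ∀ v : T, v.length = k → g v = v

lemma St.inv {k : ℕ} {g : Perm T} (h : St k g) : St k g⁻¹ :=
  ⟨L.inv_mem h.1, fun v hv => by rw [Perm.inv_eq_iff_eq, h.2 v hv]⟩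

lemma resF_take {k : ℕ} {g : Perm T} (h : St k g) (A : Set T) (v : T) :
    (resF k g A v).take k = v.take k := by
  unfold resF
  split_ifs
  · exact take_fix h.1 h.2 v
  · rfl

lemma resF_inv {k : ℕ} {g : Perm T} (h : St k g) (A : Set T) (v : T) :
    resF k (g⁻¹ : Perm T) A (resF k g A v) = v := by
  by_cases hv : v.take k ∈ A
  · have h1 : resF k g A v = g v := by simp [resF, hv]
    rw [h1]
    have h2 : (g v).take k ∈ A := by rw [take_fix h.1 h.2]; exact hv
    simp [resF, h2]
  · have h1 : resF k g A v = v := by simp [resF, hv]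
    rw [h1]
    simp [resF, hv]

lemma resF_mono {k : ℕ} {g : Perm T} (h : St k g) (A : Set T) {v w : T} (hvw : v <+: w) :
    resF k g A v <+: resF k g A w := by
  rcases le_total k v.length with hk | hk
  · have h1 : v.take k = w.take k := by
      obtain ⟨u, rfl⟩ := hvw
      rw [List.take_append_of_le_length hk]
    unfold resF
    rw [h1]
    split_ifs
    · exact (h.1.1 v w).1 hvw
    · exact hvw
  · have h1 : resF k g A v = v := by
      unfold resF
      split_ifs
      · exact fix_short h.1 h.2 v hk
      · rfl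
    rw [h1]
    have h2 := resF_take h A w
    have h3 : v <+: w.take k := by
      rw [List.prefix_take_iff]
      exact ⟨hvw, hk⟩
    rw [← h2] at h3
    exact h3.trans (List.take_prefix _ _)

lemma resF_length {k : ℕ} {g : Perm T} (h : St k g) (A : Set T) (v : T) :
    (resF k g A v).length = v.length := by
  unfold resF
  split_ifs
  · exact h.1.2.1 v
  · rfl

/-- restriction as a permutation -/
noncomputable def res (k : ℕ) (g : Perm T) (h : St k g) (A : Set T) : Perm T where
  toFun := resF k g A
  invFun := resF k (g⁻¹ : Perm T) A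
  left_inv := resF_inv h A
  right_inv := fun v => by
    have := resF_inv h.inv A v
    rwa [inv_inv] at this

lemma res_mem {k : ℕ} (hk : 2 ≤ k) (g : Perm T) (h : St k g) (A : Set T) : res k g h A ∈ L := by
  refine ⟨iff_of_mono _ (fun v w hvw => resF_mono h A hvw) (fun v w hvw => resF_mono h.inv A hvw),
    fun v => resF_length h A v, false, false, fun p q => ?_⟩
  have h1 : g [p, q] = [p, q] := fix_short h.1 h.2 _ (by simpa using hk)
  show resF k g A [p, q] = _
  unfold resF
  split_ifs
  · rw [h1]; simp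
  · simp

lemma res_single_mem {k : ℕ} (hk : 2 ≤ k) (g : Perm T) (h : St k g) (u : T) (hu : u.length = k) :
    res k g h {u} ∈ S k := by
  refine ⟨res_mem hk g h _, u, hu, fun v hv => ?_⟩
  show resF k g {u} v = v
  unfold resF
  rw [if_neg]
  intro h1
  apply hv
  rw [Set.mem_singleton_iff] at h1
  rw [← h1]
  exact List.take_prefix _ _

lemma res_insert {k : ℕ} (g : Perm T) (h : St k g) (u : T) (A : Set T) (hu : u ∉ A) :
    res k g h (insert u A) = res k g h {u} * res k g h A := by
  ext1 v
  show resF k g (insert u A) v = resF k g {u} (resF k g A v)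
  by_cases h1 : v.take k ∈ A
  · have h2 : resF k g A v = g v := by simp [resF, h1]
    have h3 : (g v).take k = v.take k := take_fix h.1 h.2 v
    have h4 : v.take k ≠ u := fun h5 => hu (h5 ▸ h1)
    rw [h2]
    simp [resF, h1, h3, h4]
  · have h2 : resF k g A v = v := by simp [resF, h1]
    rw [h2]
    simp [resF, h1]

lemma res_mem_closure {k : ℕ} (hk : 2 ≤ k) (g : Perm T) (h : St k g) (A : Finset T)
    (hA : ∀ u ∈ A, u.length = k) : res k g h (A : Set T) ∈ Subgroup.closure (S k) := by
  classical
  induction A using Finset.induction_on with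
  | empty =>
    have : res k g h ((∅ : Finset T) : Set T) = 1 := by
      ext1 v
      show resF k g _ v = v
      simp [resF]
    rw [this]
    exact Subgroup.one_mem _
  | insert u A hu ih =>
    rw [Finset.coe_insert, res_insert g h u _ (by simpa using hu)]
    refine Subgroup.mul_mem _ (Subgroup.subset_closure (res_single_mem hk g h u (hA u (by simp)))) ?_
    exact ih (fun w hw => hA w (by simp [hw]))

lemma St_mem_closure {k : ℕ} (hk : 2 ≤ k) (g : Perm T) (h : St k g) :
    g ∈ Subgroup.closure (S k) := by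
  classical
  have hfin : {l : T | l.length = k}.Finite := List.finite_length_eq Bool k
  have h1 : g = res k g h (hfin.toFinset : Set T) := by
    ext1 v
    show g v = resF k g _ v
    unfold resF
    split_ifs with h2
    · rfl
    · rcases le_total v.length k with h3 | h3
      · exact fix_short h.1 h.2 v h3
      · exfalso
        apply h2
        simp [h3]
  rw [h1]
  apply res_mem_closure hk
  intro u hu
  simpa using hu

lemma S_mono {n k : ℕ} (h : n ≤ k) : S k ⊆ S n := by
  rintro g ⟨hg, u, hu, huv⟩
  refine ⟨hg, u.take n, by simp [hu, h], fun v hv => huv v fun h1 => hv ?_⟩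
  exact (List.take_prefix n u).trans h1

/-- action on level k -/
def levelHom (k : ℕ) : L →* Perm {v : T // v.length = k} where
  toFun g := g.1.subtypePerm (fun v => by
    rw [g.2.2.1])
  map_one' := by ext; rfl
  map_mul' g h := by ext; rfl

lemma index_ne (n : ℕ) : ((Subgroup.closure (S n)).subgroupOf L).index ≠ 0 := by
  have hfin : Finite {v : T // v.length = max n 2} := List.finite_length_eq Bool _
  have h1 : ((levelHom (max n 2)).ker).FiniteIndex := inferInstance
  have h2 : (levelHom (max n 2)).ker ≤ (Subgroup.closure (S n)).subgroupOf L := by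
    intro g hg
    rw [Subgroup.mem_subgroupOf]
    apply Subgroup.closure_mono (S_mono (le_max_left n 2))
    apply St_mem_closure (le_max_right n 2)
    refine ⟨g.2, fun v hv => ?_⟩
    rw [MonoidHom.mem_ker] at hg
    have := congrArg (fun p : Perm {v : T // v.length = max n 2} => (p ⟨v, hv⟩).1) hg
    exact this
  exact (Subgroup.finiteIndex_of_le h2).index_ne_zero

end Pool.Agent.BranchNorm
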